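import Pool.Agent.PCO.StmtsB

/-!
# PCO squad, row PRC: continuity of the projection (helper41)
-/

set_option autoImplicit false

open Matrix Filter Topology

namespace Pool.Agent.PCO.H41

open Pool.Agent.PFS Pool.Agent.PFJ Pool.Agent.PCO

/-- every vector is below `b ‖y‖ x0` -/
theorem ball_bound {n : ℕ} {C : Set (V n)} (h : PCone C) {x0 : V n} (hx0 : x0 ∈ C) :
    ∃ b : ℝ, 0 < b ∧ ∀ y : V n, (b * ‖y‖) • x0 - y ∈ closure C ∧
      (b * ‖y‖) • x0 + y ∈ closure C := by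
  obtain ⟨ε, hε, hball⟩ := Metric.isOpen_iff.1 h.isOpen x0 hx0
  have key : ∀ y : V n, (2 / ε * ‖y‖) • x0 + y ∈ closure C := by
    intro y
    rcases eq_or_ne y 0 with rfl | hy
    · rw [norm_zero, mul_zero, zero_smul, add_zero]; exact h.zero_cl
    · have hyp : 0 < ‖y‖ := norm_pos_iff.2 hy
      have h1 : x0 + (ε / (2 * ‖y‖)) • y ∈ C := by
        apply hball
        rw [Metric.mem_ball, dist_eq_norm, add_sub_cancel_left, norm_smul, Real.norm_eq_abs,
          abs_of_pos (by positivity)]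
        have e : ε / (2 * ‖y‖) * ‖y‖ = ε / 2 := by field_simp
        rw [e]; linarith
      have h2 := h.smul _ h1 (2 / ε * ‖y‖) (by positivity)
      rw [smul_add, smul_smul] at h2
      have e : 2 / ε * ‖y‖ * (ε / (2 * ‖y‖)) = 1 := by field_simp
      rw [e, one_smul] at h2
      exact subset_closure h2
  refine ⟨2 / ε, by positivity, fun y => ⟨?_, key y⟩⟩
  have := key (-y)
  rwa [norm_neg, ← sub_eq_add_neg] at this

theorem prc (bf1 : Bf1Stmt) (prf : PrfStmt) (lmt : LmtStmt) : PrcStmt := by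
  intro n C Γ d h Um vm U v pm p xm x hBm hdm hB hd hLS hvm hpm hp hxm
  have hcc : CC C Γ := h.toCC
  have hpc : PCone C := hcc.toPCone
  obtain ⟨-, -, -, -, -, h6, ⟨f, hf⟩, -⟩ := bf1 n C Γ hcc h.maxc U v hB
  have hx0 : f + v ∈ C := by
    have := (h6 f hf.1 1).2 ⟨hf, one_pos⟩
    rwa [one_smul] at this
  obtain ⟨fm, hfm, hfl⟩ := hLS.1 f hf.1
  have hyl : Tendsto (fun m => fm m + vm m) atTop (𝓝 (f + v)) := hfl.add hvm
  have hpv : ∀ m, pm m (vm m) = 0 := fun m => (prf n C Γ d h _ _ (hBm m) (hdm m) _ (hpm m)).1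
  obtain ⟨b, hb, hbd⟩ := ball_bound hpc hx0
  obtain ⟨Bn, hBn, hnorm⟩ := hpc.normal
  obtain ⟨F, hF⟩ := hfl.norm.bddAbove_range
  have hF' : ∀ m, ‖fm m‖ ≤ F := fun m => hF ⟨m, rfl⟩
  have hF0 : 0 ≤ F := (norm_nonneg _).trans (hF' 0)
  -- the bound
  have hbound : ∀ᶠ m in atTop, ∀ y : V n, ‖pm m y‖ ≤ ((4 * b * Bn + 2 * b) * F) * ‖y‖ := by
    filter_upwards [hpc.squeeze hx0 hyl (M := 2) one_lt_two] with m hm y
    have hpy : pm m (fm m + vm m) = fm m := by
      rw [map_add, hpv, (hpm m).idU _ (hfm m), add_zero]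
    have key : ∀ y : V n, (2 * (b * ‖y‖)) • fm m + pm m y ∈ closure C := by
      intro y
      have h1 := (hbd y).2
      have h2 : (b * ‖y‖) • ((2 : ℝ) • (fm m + vm m) - (f + v)) ∈ closure C :=
        hpc.cl_smul (subset_closure hm.2) (by positivity)
      have h3 := hpc.cl_add h1 h2
      have e : (b * ‖y‖) • (f + v) + y + (b * ‖y‖) • ((2 : ℝ) • (fm m + vm m) - (f + v)) =
          (2 * (b * ‖y‖)) • (fm m + vm m) + y := by module
      rw [e] at h3
      have h4 := (hpm m).pos _ h3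
      rwa [map_add, map_smul, hpy] at h4
    have h1 := key y
    have h2 := key (-y)
    rw [norm_neg, map_neg] at h2
    have h3 := hnorm _ ((4 * (b * ‖y‖)) • fm m) h1 (by
      have e : (4 * (b * ‖y‖)) • fm m - ((2 * (b * ‖y‖)) • fm m + pm m y) =
          (2 * (b * ‖y‖)) • fm m + -pm m y := by module
      rw [e]; exact h2)
    have h4 : ‖pm m y‖ ≤ ‖(2 * (b * ‖y‖)) • fm m + pm m y‖ + ‖(2 * (b * ‖y‖)) • fm m‖ := by
      have e : pm m y = ((2 * (b * ‖y‖)) • fm m + pm m y) - (2 * (b * ‖y‖)) • fm m := by abel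
      calc ‖pm m y‖ = ‖((2 * (b * ‖y‖)) • fm m + pm m y) - (2 * (b * ‖y‖)) • fm m‖ := by
            rw [← e]
        _ ≤ _ := norm_sub_le _ _
    rw [norm_smul, Real.norm_eq_abs, abs_of_nonneg (by positivity)] at h3
    have h5 : ‖(2 * (b * ‖y‖)) • fm m‖ = 2 * (b * ‖y‖) * ‖fm m‖ := by
      rw [norm_smul, Real.norm_eq_abs, abs_of_nonneg (by positivity)]
    rw [h5] at h4
    have h6 := hF' m
    have h7 : (4 * b * Bn + 2 * b) * ‖y‖ * ‖fm m‖ ≤ (4 * b * Bn + 2 * b) * ‖y‖ * F := by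
      gcongr
    calc ‖pm m y‖ ≤ Bn * (4 * (b * ‖y‖) * ‖fm m‖) + 2 * (b * ‖y‖) * ‖fm m‖ := by linarith
      _ = (4 * b * Bn + 2 * b) * ‖y‖ * ‖fm m‖ := by ring
      _ ≤ (4 * b * Bn + 2 * b) * ‖y‖ * F := h7
      _ = _ := by ring
  obtain ⟨N, hN⟩ := eventually_atTop.1 hbound
  refine Filter.tendsto_of_subseq_tendsto fun ns hns => ?_
  obtain ⟨N0, hN0⟩ := eventually_atTop.1 (hns.eventually_ge_atTop N)
  obtain ⟨φ, T, hφ, hT⟩ := (lmt n).1 (fun m => pm (ns (m + N0))) _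
    (fun m y => hN _ (hN0 _ (Nat.le_add_left _ _)) y)
  have hms : Tendsto (fun m => φ m + N0) atTop atTop :=
    tendsto_atTop_mono (fun m => Nat.le_add_right _ _) hφ.tendsto_atTop
  have hidx : Tendsto (fun m => ns (φ m + N0)) atTop atTop := hns.comp hms
  have hTp : T = p := by
    obtain ⟨-, -, -, -, -, h6', -⟩ := prf n C Γ d h U v hB hd p hp
    refine h6' T (fun y hy => ?_) (fun y hy => ?_) ?_
    · refine isClosed_closure.mem_of_tendsto (hT (fun _ => y) y tendsto_const_nhds)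
        (Eventually.of_forall fun m => (hpm _).pos y hy)
    · obtain ⟨ym, hym, hyl'⟩ := hLS.1 y hy
      have h1 := hT (fun m => ym (ns (φ m + N0))) y (hyl'.comp hidx)
      refine tendsto_nhds_unique h1 ((hyl'.comp hidx).congr fun m => ?_)
      exact ((hpm _).idU _ (hym _)).symm
    · have h1 := hT (fun m => vm (ns (φ m + N0))) v (hvm.comp hidx)
      refine tendsto_nhds_unique h1 (tendsto_const_nhds.congr fun m => ?_)
      exact (hpv _).symm
  refine ⟨fun m => φ m + N0, ?_⟩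
  have h1 := hT (fun m => xm (ns (φ m + N0))) x (hxm.comp hidx)
  rw [hTp] at h1
  exact h1

end Pool.Agent.PCO.H41
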