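import Pool.Agent.Helper41_PCO.Zoom

/-!
# PCO squad, row PRJ: the monotone projection of a box (helper41)
-/

set_option autoImplicit false

open Matrix Filter Topology

namespace Pool.Agent.PCO.H41

open Pool.Agent.PFS Pool.Agent.PFJ Pool.Agent.PCO

theorem prj (bf1 : Bf1Stmt) (bf2 : Bf2Stmt) (bxm : BxmStmt) (bxl : BxlStmt) (trf : TrfStmt)
    (lmt : LmtStmt) (_smf : SmfStmt) : PrjStmt := by
  intro n C Γ d h U v hB hd
  have hcc : CC C Γ := h.toCC
  have hpc : PCone C := hcc.toPCone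
  obtain ⟨hv, hvcl, -, -, -, h6, ⟨f0, hf0⟩, -⟩ := bf1 n C Γ hcc h.maxc U v hB
  have hx0 : f0 + v ∈ C := by
    have := (h6 f0 hf0.1 1).2 ⟨hf0, one_pos⟩
    rwa [one_smul] at this
  obtain ⟨ψ, g, s, U', v', f', T, hψ, hg, hs, hB', hfin', hf', hp, hlf, hlv, -, hTpos, hT, hTU⟩ :=
    zoom bf1 bf2 bxl trf lmt h hB hd (fun _ => f0) (fun _ => hf0) (fun m => (2 : ℝ) ^ m)
      (fun m => by positivity) hx0 (fun m => by
        have e : f0 + (2 : ℝ) ^ m • v - (f0 + v) = ((2 : ℝ) ^ m - 1) • v := by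
          rw [sub_smul, one_smul]; abel
        rw [e]
        exact hpc.cl_smul hvcl (by have := one_le_pow₀ (n := m) (one_le_two (α := ℝ)); linarith))
  have hψt : Tendsto (fun m => (2 : ℝ) ^ ψ m) atTop atTop :=
    (tendsto_pow_atTop_atTop_of_one_lt one_lt_two).comp hψ.tendsto_atTop
  have hconst : ∀ y, Tendsto (fun m => s m • act (g m) y) atTop (𝓝 (T y)) := fun y =>
    hT (fun _ => y) y tendsto_const_nhds
  have hTf : T f0 = f' := tendsto_nhds_unique (hconst f0) hlf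
  have hTv : T v = 0 := by
    have h1 : Tendsto (fun m => ((2 : ℝ) ^ ψ m)⁻¹ • (s m • act (g m) ((2 : ℝ) ^ ψ m • v))) atTop
        (𝓝 ((0 : ℝ) • v')) := (hψt.inv_tendsto_atTop).smul hlv
    rw [zero_smul] at h1
    refine tendsto_nhds_unique (hconst v) (h1.congr fun m => ?_)
    rw [CC.act_smul, smul_smul, smul_smul]
    congr 1
    have : (2 : ℝ) ^ ψ m ≠ 0 := by positivity
    field_simp
  -- the zoomed points
  have hlp : Tendsto (fun m => s m • act (g m) (f0 + (2 : ℝ) ^ ψ m • v)) atTop (𝓝 (f' + v')) := by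
    refine (hlf.add hlv).congr fun m => ?_
    rw [CC.act_add, smul_add]
  have hev : ∀ (x : V n) (ε : ℝ), 0 < ε → T x ∈ closure C →
      ∀ᶠ m in atTop, x + ε • (f0 + (2 : ℝ) ^ ψ m • v) ∈ C := by
    intro x ε hε hx
    have h1 : Tendsto (fun m => s m • act (g m) (x + ε • (f0 + (2 : ℝ) ^ ψ m • v))) atTop
        (𝓝 (T x + ε • (f' + v'))) := by
      refine ((hconst x).add (hlp.const_smul ε)).congr fun m => ?_
      rw [CC.act_add (g m) x, CC.act_smul (g m) ε, smul_add (s m), smul_comm ε (s m)]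
    have h2 : T x + ε • (f' + v') ∈ C := hpc.cl_add' hx (hpc.smul _ hp ε hε)
    filter_upwards [h1.eventually (hpc.isOpen.mem_nhds h2)] with m hm
    exact (hcc.sact_mem_iff (hg m) (hs m)).1 hm
  have ha : ∀ y ∈ U, T y ∈ closure C → y ∈ closure C := by
    intro y hy hTy
    refine cl_of_small (w := f0) fun ε hε => ?_
    obtain ⟨m, hm⟩ := (hev y ε hε hTy).exists
    have e : y + ε • (f0 + (2 : ℝ) ^ ψ m • v) = (ε • f0 + y) + (ε * (2 : ℝ) ^ ψ m) • v := by
      rw [smul_add, smul_smul]; abel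
    rw [e] at hm
    exact (hB.comp _ (U.add_mem (U.smul_mem _ hf0.1) hy) _ (subset_closure hm)).1
  have hinj : ∀ y ∈ U, T y = 0 → y = 0 := by
    intro y hy hTy
    refine hpc.salient y (ha y hy (by rw [hTy]; exact hpc.zero_cl))
      (ha (-y) (U.neg_mem hy) (by rw [map_neg, hTy, neg_zero]; exact hpc.zero_cl))
  -- `T x ∈ U'`
  obtain ⟨hbxm, -⟩ := bxm n C Γ d h U' v' hB' hfin'
  have hTx0 : T (f0 + v) = f' := by rw [map_add, hTf, hTv, add_zero]
  have hcl : ∀ x ∈ closure C, T x ∈ U' := by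
    intro x hx
    obtain ⟨M, -, hM⟩ := hpc.absorb hx0 x
    refine hbxm f' hf'.1 (T x) (hTpos x hx) M ?_
    have := hTpos _ (subset_closure hM)
    rwa [map_sub, map_smul, hTx0] at this
  have hall : ∀ x, T x ∈ U' := by
    intro x
    obtain ⟨M, -, hM⟩ := hpc.absorb hx0 x
    have h1 := hcl _ (subset_closure hM)
    rw [map_sub, map_smul, hTx0] at h1
    have h2 := U'.sub_mem (U'.smul_mem M hf'.1) h1
    rwa [sub_sub_cancel] at h2
  -- the equivalence
  let TU : U →ₗ[ℝ] U' := (T.comp U.subtype).codRestrict U' fun y => hTU y y.2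
  have hTUinj : Function.Injective TU := by
    rw [← LinearMap.ker_eq_bot, LinearMap.ker_eq_bot']
    intro y hy
    have h1 : T (y : V n) = 0 := congrArg Subtype.val hy
    exact Subtype.ext (hinj y y.2 h1)
  let E : U ≃ₗ[ℝ] U' := LinearMap.linearEquivOfInjective TU hTUinj (by rw [hd, hfin'])
  have hE : ∀ y : U, ((E y : U') : V n) = T y := fun y => rfl
  let p : V n →ₗ[ℝ] V n :=
    U.subtype.comp ((E.symm : U' →ₗ[ℝ] U).comp (T.codRestrict U' hall))
  have hTp : ∀ x, T (p x) = T x := by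
    intro x
    change T ((E.symm ⟨T x, hall x⟩ : U) : V n) = T x
    rw [← hE, E.apply_symm_apply]
  have hmem : ∀ x, p x ∈ U := fun x => (E.symm ⟨T x, hall x⟩ : U).2
  refine ⟨p, hmem, fun y hy => ?_, fun x hx => ha _ (hmem x) (by rw [hTp]; exact hTpos x hx),
    fun x => ⟨fun hx => ?_, fun hx => ?_⟩⟩
  · have h1 := hinj (p y - y) (U.sub_mem (hmem y) hy) (by rw [map_sub, hTp, sub_self])
    exact sub_eq_zero.1 h1
  · have hTx : T x = 0 := by rw [← hTp, hx, map_zero]
    refine sml_of hpc hx0 fun τ hτ => ?_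
    have e1 := hev (-x) τ hτ (by rw [map_neg, hTx, neg_zero]; exact hpc.zero_cl)
    have e2 := hev x τ hτ (by rw [hTx]; exact hpc.zero_cl)
    obtain ⟨m, hm1, hm2⟩ := (e1.and e2).exists
    refine ⟨τ * (2 : ℝ) ^ ψ m, by positivity, ?_, ?_⟩
    · have h3 := hpc.add_cl hm1 (hpc.cl_smul hvcl hτ.le)
      have e : -x + τ • (f0 + (2 : ℝ) ^ ψ m • v) + τ • v =
          (τ * (2 : ℝ) ^ ψ m) • v + τ • (f0 + v) - x := by module
      rw [e] at h3
      exact subset_closure h3
    · have h3 := hpc.add_cl hm2 (hpc.cl_smul hvcl hτ.le)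
      have e : x + τ • (f0 + (2 : ℝ) ^ ψ m • v) + τ • v =
          (τ * (2 : ℝ) ^ ψ m) • v + τ • (f0 + v) + x := by module
      rw [e] at h3
      exact subset_closure h3
  · have hTx : T x = 0 := sml_ker hpc T hTpos hTv hx
    exact hinj _ (hmem x) (by rw [hTp, hTx])

end Pool.Agent.PCO.H41
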