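import Pool.Agent.PCO.StmtsB

/-!
# PCO squad, row SMF: facts on small vectors (helper41)
-/

set_option autoImplicit false

open Matrix Filter Topology

namespace Pool.Agent.PCO.H41

open Pool.Agent.PFS Pool.Agent.PFJ Pool.Agent.PCO

variable {n : ℕ} {C : Set (V n)}

theorem sml_of (h : PCone C) {v x0 u : V n} (hx0 : x0 ∈ C)
    (hyp : ∀ τ : ℝ, 0 < τ → ∃ κ : ℝ, 0 < κ ∧ κ • v + τ • x0 - u ∈ closure C ∧
      κ • v + τ • x0 + u ∈ closure C) : Sml C v u := by
  intro x hx τ hτ
  obtain ⟨M, hM, hMx⟩ := h.absorb hx x0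
  obtain ⟨κ, hκ, h1, h2⟩ := hyp (τ / M) (by positivity)
  have h3 : (τ / M) • (M • x - x0) ∈ closure C :=
    h.cl_smul (subset_closure hMx) (by positivity)
  have e : (τ / M) • (M • x - x0) = τ • x - (τ / M) • x0 := by
    rw [smul_sub, smul_smul, div_mul_cancel₀ _ hM.ne']
  rw [e] at h3
  refine ⟨κ, hκ, ?_, ?_⟩
  · have h4 := h.cl_add h1 h3
    have e2 : κ • v + (τ / M) • x0 - u + (τ • x - (τ / M) • x0) = κ • v + τ • x - u := by abel
    rwa [e2] at h4
  · have h4 := h.cl_add h2 h3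
    have e2 : κ • v + (τ / M) • x0 + u + (τ • x - (τ / M) • x0) = κ • v + τ • x + u := by abel
    rwa [e2] at h4

theorem abs_smul_cl (h : PCone C) {w u : V n} (h1 : w - u ∈ closure C) (h2 : w + u ∈ closure C)
    (α : ℝ) : |α| • w - α • u ∈ closure C ∧ |α| • w + α • u ∈ closure C := by
  rcases le_or_gt 0 α with hα | hα
  · rw [abs_of_nonneg hα, ← smul_sub, ← smul_add]
    exact ⟨h.cl_smul h1 hα, h.cl_smul h2 hα⟩
  · rw [abs_of_neg hα]
    have e1 : -α • w - α • u = (-α) • (w + u) := by rw [smul_add, neg_smul, neg_smul]; abel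
    have e2 : -α • w + α • u = (-α) • (w - u) := by rw [smul_sub, neg_smul, neg_smul]; abel
    rw [e1, e2]
    exact ⟨h.cl_smul h2 (by linarith), h.cl_smul h1 (by linarith)⟩

theorem sml_lin (h : PCone C) {v : V n} (hv : v ∈ closure C) (α β : ℝ) {u u' : V n}
    (hu : Sml C v u) (hu' : Sml C v u') : Sml C v (α • u + β • u') := by
  intro x hx τ hτ
  have hs : 0 < |α| + |β| + 1 := by positivity
  obtain ⟨κ, hκ, h1, h2⟩ := hu x hx (τ / (|α| + |β| + 1)) (by positivity)
  obtain ⟨κ', hκ', h1', h2'⟩ := hu' x hx (τ / (|α| + |β| + 1)) (by positivity)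
  obtain ⟨a1, a2⟩ := abs_smul_cl h h1 h2 α
  obtain ⟨b1, b2⟩ := abs_smul_cl h h1' h2' β
  have hr : v + (τ / (|α| + |β| + 1)) • x ∈ closure C :=
    h.cl_add hv (h.cl_smul (subset_closure hx) (by positivity))
  have hτe : |α| * (τ / (|α| + |β| + 1)) + |β| * (τ / (|α| + |β| + 1)) +
      τ / (|α| + |β| + 1) = τ := by field_simp
  set t := τ / (|α| + |β| + 1) with ht
  refine ⟨|α| * κ + |β| * κ' + 1, by positivity, ?_, ?_⟩
  · have h3 := h.cl_add (h.cl_add a1 b1) hr
    have e : |α| • (κ • v + t • x) - α • u + (|β| • (κ' • v + t • x) - β • u') + (v + t • x) =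
        (|α| * κ + |β| * κ' + 1) • v + (|α| * t + |β| * t + t) • x - (α • u + β • u') := by
      module
    rw [e, hτe] at h3
    exact h3
  · have h3 := h.cl_add (h.cl_add a2 b2) hr
    have e : |α| • (κ • v + t • x) + α • u + (|β| • (κ' • v + t • x) + β • u') + (v + t • x) =
        (|α| * κ + |β| * κ' + 1) • v + (|α| * t + |β| * t + t) • x + (α • u + β • u') := by
      module
    rw [e, hτe] at h3
    exact h3

theorem sml_map (h : PCone C) {v : V n} (T : V n →ₗ[ℝ] V n)
    (hT : ∀ x ∈ closure C, T x ∈ closure C) {u : V n} (hu : Sml C v u) :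
    Sml C (T v) (T u) := by
  obtain ⟨z, hz⟩ := h.nonempty
  obtain ⟨M, hM, hMz⟩ := h.absorb hz (T z)
  refine sml_of h hz fun τ hτ => ?_
  obtain ⟨κ, hκ, h1, h2⟩ := hu z hz (τ / M) (by positivity)
  have h3 : (τ / M) • (M • z - T z) ∈ closure C :=
    h.cl_smul (subset_closure hMz) (by positivity)
  have e : (τ / M) • (M • z - T z) = τ • z - (τ / M) • T z := by
    rw [smul_sub, smul_smul, div_mul_cancel₀ _ hM.ne']
  rw [e] at h3
  have h1' := hT _ h1
  have h2' := hT _ h2
  rw [map_sub, map_add, map_smul, map_smul] at h1'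
  rw [map_add, map_add, map_smul, map_smul] at h2'
  refine ⟨κ, hκ, ?_, ?_⟩
  · have h4 := h.cl_add h1' h3
    have e2 : κ • T v + (τ / M) • T z - T u + (τ • z - (τ / M) • T z) =
        κ • T v + τ • z - T u := by abel
    rwa [e2] at h4
  · have h4 := h.cl_add h2' h3
    have e2 : κ • T v + (τ / M) • T z + T u + (τ • z - (τ / M) • T z) =
        κ • T v + τ • z + T u := by abel
    rwa [e2] at h4

/-- `y ∈ closure C` if `τ w + y ∈ closure C` for all `τ > 0` -/
theorem cl_of_small {w y : V n} (hyp : ∀ τ : ℝ, 0 < τ → τ • w + y ∈ closure C) :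
    y ∈ closure C := by
  have ht : Tendsto (fun m : ℕ => (1 / ((m : ℝ) + 1)) • w + y) atTop (𝓝 ((0 : ℝ) • w + y)) :=
    (tendsto_one_div_add_atTop_nhds_zero_nat.smul_const w).add_const y
  rw [zero_smul, zero_add] at ht
  exact isClosed_closure.mem_of_tendsto ht
    (Eventually.of_forall fun m => hyp _ (by positivity))

theorem sml_ker (h : PCone C) {v : V n} (T : V n →ₗ[ℝ] V n)
    (hT : ∀ x ∈ closure C, T x ∈ closure C) (hTv : T v = 0) {u : V n} (hu : Sml C v u) :
    T u = 0 := by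
  obtain ⟨x, hx⟩ := h.nonempty
  have h1 : T u ∈ closure C := by
    refine cl_of_small (w := T x) fun τ hτ => ?_
    obtain ⟨κ, -, -, h2⟩ := hu x hx τ hτ
    have h3 := hT _ h2
    rwa [map_add, map_add, map_smul, map_smul, hTv, smul_zero, zero_add] at h3
  have h2 : - T u ∈ closure C := by
    refine cl_of_small (w := T x) fun τ hτ => ?_
    obtain ⟨κ, -, h2, -⟩ := hu x hx τ hτ
    have h3 := hT _ h2
    rwa [map_sub, map_add, map_smul, map_smul, hTv, smul_zero, zero_add, sub_eq_add_neg] at h3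
  exact h.salient _ h1 h2

theorem smf : SmfStmt := by
  intro n C h v hv
  refine ⟨fun x0 hx0 u hu => sml_of h hx0 hu, fun α β u u' hu hu' => sml_lin h hv α β hu hu',
    fun ψ hψ hψv u hu => ?_, fun T hT u hu => sml_map h T hT hu, fun x hx τ hτ => ?_,
    fun T hT hTv u hu => sml_ker h T hT hTv hu⟩
  · obtain ⟨x, hx⟩ := h.nonempty
    have hx0 : 0 ≤ ψ x := hψ x (subset_closure hx)
    have key : ∀ τ : ℝ, 0 < τ → |ψ u| ≤ τ * ψ x := by
      intro τ hτ
      obtain ⟨κ, -, h1, h2⟩ := hu x hx τ hτ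
      have h1' := hψ _ h1
      have h2' := hψ _ h2
      rw [map_sub, map_add, map_smul, map_smul, hψv, smul_zero, zero_add, smul_eq_mul] at h1'
      rw [map_add, map_add, map_smul, map_smul, hψv, smul_zero, zero_add, smul_eq_mul] at h2'
      exact abs_le.2 ⟨by linarith, by linarith⟩
    by_contra hne
    have hp : 0 < |ψ u| := abs_pos.2 hne
    have h3 := key (|ψ u| / (2 * (ψ x + 1))) (by positivity)
    have h4 : |ψ u| / (2 * (ψ x + 1)) * ψ x ≤ |ψ u| / 2 := by
      rw [div_mul_eq_mul_div, div_le_div_iff₀ (by positivity) (by norm_num)]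
      nlinarith
    linarith
  · refine ⟨1, one_pos, ?_, ?_⟩
    · rw [one_smul, add_sub_cancel_left]
      exact h.cl_smul (subset_closure hx) hτ.le
    · rw [one_smul]
      exact h.cl_add (h.cl_add hv (h.cl_smul (subset_closure hx) hτ.le)) hv

end Pool.Agent.PCO.H41
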