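import Pool.Agent.Helper41_PCO.Zoom

/-!
# PCO squad, row TZA: the zoom at a boundary ray, for two boxes with the same `U` (helper41)
-/

set_option autoImplicit false

open Matrix Filter Topology

namespace Pool.Agent.PCO.H41

open Pool.Agent.PFS Pool.Agent.PFJ Pool.Agent.PCO

theorem tza (bf1 : Bf1Stmt) (bf2 : Bf2Stmt) (bxm : BxmStmt) (bxl : BxlStmt) (trf : TrfStmt)
    (lmt : LmtStmt) (_smf : SmfStmt) : TzaStmt := by
  intro n C Γ d h U v w a c hB hBw hd ha hc hac
  have hcc : CC C Γ := h.toCC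
  have hpc : PCone C := hcc.toPCone
  obtain ⟨hv, hvcl, -, -, hst, h6, -⟩ := bf1 n C Γ hcc h.maxc U v hB
  obtain ⟨-, hwcl, -, -, -, h6w, -⟩ := bf1 n C Γ hcc h.maxc U w hBw
  obtain ⟨haU, hacl, ha0, hau⟩ := ha
  obtain ⟨hcU, hccl, hc0, hcu⟩ := hc
  have hunac : Unt C U (a + c) := hst a haU c hcU hacl hccl hac
  have hx0 : a + c + v ∈ C := by
    have := (h6 _ hunac.1 1).2 ⟨hunac, one_pos⟩
    rwa [one_smul] at this
  have hx0w : a + c + w ∈ C := by
    have := (h6w _ hunac.1 1).2 ⟨hunac, one_pos⟩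
    rwa [one_smul] at this
  have hpow : ∀ m : ℕ, (0 : ℝ) ≤ (2 : ℝ) ^ m - 1 := fun m => by
    have := one_le_pow₀ (n := m) (one_le_two (α := ℝ)); linarith
  have hf : ∀ m : ℕ, Unt C U ((2 : ℝ) ^ m • a + c) := by
    intro m
    refine (Pool.Agent.PFJ.H76.unf n C hpc U (a + c) hunac).2.1 _
      (U.add_mem (U.smul_mem _ haU) hcU) ?_
    have e : (2 : ℝ) ^ m • a + c - (a + c) = ((2 : ℝ) ^ m - 1) • a := by
      rw [sub_smul, one_smul]; abel
    rw [e]
    exact hpc.cl_smul hacl (hpow m)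
  obtain ⟨ψ, g, s, U', v', f', T, hψ, hg, hs, hB', hfin', hf', hp, hlf, hlv, hLS, hTpos, hT, hTU⟩ :=
    zoom bf1 bf2 bxl trf lmt h hB hd (fun m => (2 : ℝ) ^ m • a + c) hf (fun _ => 1)
      (fun _ => one_pos) hx0 (fun m => by
        have e : (2 : ℝ) ^ m • a + c + (1 : ℝ) • v - (a + c + v) = ((2 : ℝ) ^ m - 1) • a := by
          rw [sub_smul, one_smul, one_smul]; abel
        rw [e]
        exact hpc.cl_smul hacl (hpow m))
  have hψt : Tendsto (fun m => (2 : ℝ) ^ ψ m) atTop atTop :=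
    (tendsto_pow_atTop_atTop_of_one_lt one_lt_two).comp hψ.tendsto_atTop
  have hψi : Tendsto (fun m => ((2 : ℝ) ^ ψ m)⁻¹) atTop (𝓝 0) := hψt.inv_tendsto_atTop
  have hconst : ∀ y, Tendsto (fun m => s m • act (g m) y) atTop (𝓝 (T y)) := fun y =>
    hT (fun _ => y) y tendsto_const_nhds
  have hTv : T v = v' := by
    refine tendsto_nhds_unique (hconst v) (hlv.congr fun m => ?_)
    rw [one_smul]
  subst hTv
  -- the zoomed points
  have hlp : Tendsto (fun m => s m • act (g m) ((2 : ℝ) ^ ψ m • a + c + v)) atTop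
      (𝓝 (f' + T v)) := by
    refine (hlf.add (hconst v)).congr fun m => ?_
    rw [CC.act_add (g m) _ v, smul_add]
  have hev : ∀ (x : V n) (ε : ℝ), 0 < ε → T x ∈ closure C →
      ∀ᶠ m in atTop, x + ε • ((2 : ℝ) ^ ψ m • a + c + v) ∈ C := by
    intro x ε hε hx
    have h1 : Tendsto (fun m => s m • act (g m) (x + ε • ((2 : ℝ) ^ ψ m • a + c + v))) atTop
        (𝓝 (T x + ε • (f' + T v))) := by
      refine ((hconst x).add (hlp.const_smul ε)).congr fun m => ?_
      rw [CC.act_add (g m) x, CC.act_smul (g m) ε, smul_add (s m), smul_comm ε (s m)]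
    have h2 : T x + ε • (f' + T v) ∈ C := hpc.cl_add' hx (hpc.smul _ hp ε hε)
    filter_upwards [h1.eventually (hpc.isOpen.mem_nhds h2)] with m hm
    exact (hcc.sact_mem_iff (hg m) (hs m)).1 hm
  -- `T a = 0`
  have hTa : T a = 0 := by
    refine hpc.salient _ (hTpos a hacl) ?_
    refine cl_of_small (w := f' + T v) fun ε hε => ?_
    -- `ε p - T a`
    have h1 : Tendsto (fun m => s m • act (g m)
        (ε • ((2 : ℝ) ^ ψ m • a + c + v) - a)) atTop (𝓝 (ε • (f' + T v) - T a)) := by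
      refine ((hlp.const_smul ε).sub (hconst a)).congr fun m => ?_
      rw [CC.act_sub (g m), CC.act_smul (g m) ε, smul_sub (s m), smul_comm ε (s m)]
    rw [← sub_eq_add_neg]
    refine isClosed_closure.mem_of_tendsto h1 ?_
    filter_upwards [hψt.eventually_ge_atTop (1 / ε)] with m hm
    rw [hcc.sact_cl_iff (hg m) (hs m)]
    have e : ε • ((2 : ℝ) ^ ψ m • a + c + v) - a =
        (ε * (2 : ℝ) ^ ψ m - 1) • a + ε • (c + v) := by module
    rw [e]
    have h2 : 1 ≤ ε * (2 : ℝ) ^ ψ m := by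
      rw [div_le_iff₀ hε] at hm
      linarith
    exact hpc.cl_add (hpc.cl_smul hacl (by linarith)) (hpc.cl_smul (hpc.cl_add hccl hvcl) hε.le)
  have hTcU : T c ∈ U' := hTU c hcU
  have hTccl : T c ∈ closure C := hTpos c hccl
  have hla : Tendsto (fun m => s m • act (g m) ((2 : ℝ) ^ ψ m • a)) atTop (𝓝 (f' - T c)) := by
    refine (hlf.sub (hconst c)).congr fun m => ?_
    rw [CC.act_add (g m), smul_add, add_sub_cancel_right]
  have ha'cl : f' - T c ∈ closure C := by
    refine isClosed_closure.mem_of_tendsto hla (Eventually.of_forall fun m => ?_)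
    rw [hcc.sact_cl_iff (hg m) (hs m)]
    exact hpc.cl_smul hacl (by positivity)
  obtain ⟨-, -, -, -, hst', h6', -⟩ := bf1 n C Γ hcc h.maxc U' (T v) hB'
  have hTc0 : T c ≠ 0 := by
    intro h0
    have h1 : Tendsto (fun m => s m • act (g m) ((2 : ℝ) ^ ψ m • a + v)) atTop
        (𝓝 (f' + T v)) := by
      have h2 := hla.add (hconst v)
      rw [h0, sub_zero] at h2
      refine h2.congr fun m => ?_
      rw [CC.act_add (g m), smul_add]
    obtain ⟨m, hm⟩ := (h1.eventually (hpc.isOpen.mem_nhds hp)).exists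
    have h3 := (hcc.sact_mem_iff (hg m) (hs m)).1 hm
    have h4 := ((h6 ((2 : ℝ) ^ ψ m • a) (U.smul_mem _ haU) 1).1 (by rw [one_smul]; exact h3)).1
    have h5 := (Pool.Agent.PFJ.H76.unf n C hpc U _ h4).1 ((2 : ℝ) ^ ψ m)⁻¹ (by positivity)
    rw [smul_smul, inv_mul_cancel₀ (by positivity), one_smul] at h5
    exact hau h5
  have hTcu : ¬ Unt C U' (T c) := by
    intro hu
    have h0 := (h6' _ hTcU 1).2 ⟨hu, one_pos⟩
    rw [one_smul] at h0
    have h1 : Tendsto (fun m => s m • act (g m) (c + v)) atTop (𝓝 (T c + T v)) := by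
      refine ((hconst c).add (hconst v)).congr fun m => ?_
      rw [CC.act_add (g m), smul_add]
    obtain ⟨m, hm⟩ := (h1.eventually (hpc.isOpen.mem_nhds h0)).exists
    have h3 := (hcc.sact_mem_iff (hg m) (hs m)).1 hm
    exact hcu ((h6 _ hcU 1).1 (by rw [one_smul]; exact h3)).1
  -- the second box
  have hBw' : Bx C Γ U' (T w) := by
    obtain ⟨M, hM, hMv⟩ := hpc.absorb hx0w v
    have hlw : Tendsto (fun m => s m • act (g m) ((2 : ℝ) ^ ψ m • a + c) + s m • act (g m) w) atTop
        (𝓝 (f' + T w)) := hlf.add (hconst w)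
    have hpw : f' + T w ∈ C := by
      have h1 : (1 + M) • (f' + T w) - (f' + T v) ∈ closure C := by
        have h2 := (hlw.const_smul (1 + M)).sub (hlf.add (hconst v))
        refine isClosed_closure.mem_of_tendsto h2 (Eventually.of_forall fun m => ?_)
        have e : (1 + M) • (s m • act (g m) ((2 : ℝ) ^ ψ m • a + c) + s m • act (g m) w) -
            (s m • act (g m) ((2 : ℝ) ^ ψ m • a + c) + s m • act (g m) v) =
            s m • act (g m) ((1 + M) • ((2 : ℝ) ^ ψ m • a + c + w) -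
              ((2 : ℝ) ^ ψ m • a + c + v)) := by
          rw [CC.act_sub (g m), CC.act_smul (g m) (1 + M), CC.act_add (g m) _ w,
            CC.act_add (g m) _ v, smul_sub (s m), smul_comm (s m) (1 + M), smul_add (s m),
            smul_add (s m)]
        rw [e, hcc.sact_cl_iff (hg m) (hs m)]
        have e2 : (1 + M) • ((2 : ℝ) ^ ψ m • a + c + w) - ((2 : ℝ) ^ ψ m • a + c + v) =
            (M * ((2 : ℝ) ^ ψ m - 1)) • a + w + (M • (a + c + w) - v) := by module
        rw [e2]
        exact hpc.cl_add (hpc.cl_add (hpc.cl_smul hacl (mul_nonneg hM.le (hpow _))) hwcl)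
          (subset_closure hMv)
      have h3 := hpc.mem_of_le hp h1
      exact (hpc.smul_iff (by linarith)).1 h3
    have hBm : ∀ m, Bx C Γ (img (g m) U) (s m • act (g m) w) := by
      intro m
      obtain ⟨-, -, -, -, -, h6'', -⟩ := bf2 n C Γ hcc h.maxc U w hBw
      exact (h6'' (g m) (hg m) (s m) (hs m)).1
    have hfm : ∀ m, s m • act (g m) ((2 : ℝ) ^ ψ m • a + c) ∈ img (g m) U := fun m =>
      (img (g m) U).smul_mem _ (mem_img.2 ⟨_, (hf (ψ m)).1, rfl⟩)
    obtain ⟨φ, U'', v'', f'', hφ, hB'', -, -, -, hlv'', hLS'', -⟩ :=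
      bxl n C Γ hcc h.maxc (fun m => img (g m) U) (fun m => s m • act (g m) w)
        (fun m => s m • act (g m) ((2 : ℝ) ^ ψ m • a + c)) (f' + T w) hBm hfm hpw hlw
    have h1 : v'' = T w := tendsto_nhds_unique hlv'' ((hconst w).comp hφ.tendsto_atTop)
    have h2 : U'' = U' := (Pool.Agent.PFJ.H10.lsf n).2.2.1 _ _ _ hLS''
      ((Pool.Agent.PFJ.H10.lsf n).1 _ _ φ hLS hφ)
    rwa [h1, h2] at hB''
  refine ⟨T, U', hB', hBw', hfin', ⟨hTcU, hTccl, hTc0, hTcu⟩, hTa, hTpos, ?_, ?_, ?_⟩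
  · intro x hTx
    refine sml_of hpc hx0 fun τ hτ => ?_
    have e1 := hev (-x) τ hτ (by rw [map_neg, hTx, neg_zero]; exact hpc.zero_cl)
    have e2 := hev x τ hτ (by rw [hTx]; exact hpc.zero_cl)
    obtain ⟨m, hm1, hm2⟩ := (e1.and e2).exists
    refine ⟨τ * (2 : ℝ) ^ ψ m, by positivity, ?_, ?_⟩
    · have h3 := hpc.add_cl hm1 (hpc.cl_smul hacl hτ.le)
      have e : -x + τ • ((2 : ℝ) ^ ψ m • a + c + v) + τ • a =
          (τ * (2 : ℝ) ^ ψ m) • a + τ • (a + c + v) - x := by module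
      rw [e] at h3
      exact subset_closure h3
    · have h3 := hpc.add_cl hm2 (hpc.cl_smul hacl hτ.le)
      have e : x + τ • ((2 : ℝ) ^ ψ m • a + c + v) + τ • a =
          (τ * (2 : ℝ) ^ ψ m) • a + τ • (a + c + v) + x := by module
      rw [e] at h3
      exact subset_closure h3
  · -- rank one on `U`
    have key : ∀ u ∈ U, u ∈ closure C → ∃ t : ℝ, T u = t • T c := by
      intro u hu hucl
      refine ind2_or hTc0 fun hind => ?_
      have h1 := hst' (T u) (hTU u hu) (T c) hTcU (hTpos u hucl) hTccl hind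
      have h2 := (h6' _ h1.1 1).2 ⟨h1, one_pos⟩
      rw [one_smul] at h2
      obtain ⟨M, hM, hMa⟩ := hpc.absorb h2 (f' - T c)
      have h3 : Tendsto (fun m => s m • act (g m) (M • (u + c + v) - (2 : ℝ) ^ ψ m • a)) atTop
          (𝓝 (M • (T u + T c + T v) - (f' - T c))) := by
        have h4 := (((hconst u).add (hconst c)).add (hconst v)).const_smul M
        refine (h4.sub hla).congr fun m => ?_
        rw [CC.act_sub (g m), CC.act_smul (g m) M, CC.act_add (g m) _ v, CC.act_add (g m) u,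
          smul_sub (s m), smul_comm (s m) M, smul_add (s m) _ (act (g m) v),
          smul_add (s m) (act (g m) u)]
      have h5 : ∀ᶠ m in atTop, M • (u + c + v) - (2 : ℝ) ^ ψ m • a ∈ C := by
        filter_upwards [h3.eventually (hpc.isOpen.mem_nhds hMa)] with m hm
        exact (hcc.sact_mem_iff (hg m) (hs m)).1 hm
      have h6 : -a ∈ closure C := by
        have h7 : Tendsto (fun m => ((2 : ℝ) ^ ψ m)⁻¹ •
            (M • (u + c + v) - (2 : ℝ) ^ ψ m • a)) atTop (𝓝 ((0 : ℝ) • (M • (u + c + v)) - a)) := by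
          refine ((hψi.smul_const (M • (u + c + v))).sub (tendsto_const_nhds (x := a))).congr
            fun m => ?_
          rw [smul_sub, smul_smul ((2 : ℝ) ^ ψ m)⁻¹ ((2 : ℝ) ^ ψ m), inv_mul_cancel₀ (by positivity),
            one_smul]
        rw [zero_smul, zero_sub] at h7
        refine isClosed_closure.mem_of_tendsto h7 ?_
        filter_upwards [h5] with m hm
        exact hpc.cl_smul (subset_closure hm) (by positivity)
      exact ha0 (hpc.salient a hacl h6)
    intro u hu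
    obtain ⟨M, -, hM⟩ := hunac.2.2 u hu
    obtain ⟨t, ht⟩ := key (M • (a + c) - u) (U.sub_mem (U.smul_mem _ hunac.1) hu) hM
    rw [map_sub, map_smul, map_add, hTa, zero_add] at ht
    refine ⟨M - t, ?_⟩
    rw [sub_smul, ← ht, sub_sub_cancel]
  · intro q hq M hM
    obtain ⟨-, -, -, -, hext, -⟩ := bxm n C Γ d h U' (T v) hB' hfin'
    refine hext (T q) (hTpos q hq) M ?_
    have := hTpos _ hM
    rwa [map_sub, map_smul, map_add, hTa, zero_add] at this

end Pool.Agent.PCO.H41
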