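import Pool.Agent.Helper41_PCO.SMF

/-!
# PCO squad, the common zoom of the rows PRJ and TZA (helper41)
-/

set_option autoImplicit false

open Matrix Filter Topology

namespace Pool.Agent.PCO.H41

open Pool.Agent.PFS Pool.Agent.PFJ Pool.Agent.PCO

variable {n : ℕ} {C : Set (V n)}

theorem ind2_or {x y : V n} (hy : y ≠ 0) (h : ¬ Ind2 x y) : ∃ t : ℝ, x = t • y := by
  unfold Ind2 at h
  push Not at h
  obtain ⟨a, b, h1, h2⟩ := h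
  have ha : a ≠ 0 := by
    intro ha
    rw [ha, zero_smul, zero_add] at h1
    exact h2 ha ((smul_eq_zero.1 h1).resolve_right hy)
  refine ⟨-(b / a), ?_⟩
  have h3 : a • x = -(b • y) := eq_neg_of_add_eq_zero_left h1
  have h4 : x = a⁻¹ • (a • x) := by rw [smul_smul, inv_mul_cancel₀ ha, one_smul]
  rw [h4, h3, smul_neg, smul_smul, neg_smul, div_eq_inv_mul]

theorem unit_ne {Γ : Subgroup (GL (Fin n) ℝ)} (bf1 : Bf1Stmt) (h : CC C Γ) (hK : MaxCard C Γ 3)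
    {U : Submodule ℝ (V n)} {v : V n} (hB : Bx C Γ U v) {f : V n} (hf : Unt C U f) : f ≠ 0 := by
  obtain ⟨hv, -, -, -, -, h6, -⟩ := bf1 n C Γ h hK U v hB
  intro h0
  have h1 := (h6 f hf.1 1).2 ⟨hf, one_pos⟩
  rw [h0, zero_add, one_smul] at h1
  exact h.hul.lamNot v hv h1

theorem zoom (bf1 : Bf1Stmt) (bf2 : Bf2Stmt) (bxl : BxlStmt) (trf : TrfStmt) (lmt : LmtStmt)
    {Γ : Subgroup (GL (Fin n) ℝ)} {d : ℕ} (h : Hyp C Γ d)
    {U : Submodule ℝ (V n)} {v : V n} (hB : Bx C Γ U v) (hd : Module.finrank ℝ U = d)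
    (f : ℕ → V n) (hf : ∀ m, Unt C U (f m)) (τ : ℕ → ℝ) (hτ : ∀ m, 0 < τ m) {x0 : V n}
    (hx0 : x0 ∈ C) (hle : ∀ m, f m + τ m • v - x0 ∈ closure C) :
    ∃ (ψ : ℕ → ℕ) (g : ℕ → GL (Fin n) ℝ) (s : ℕ → ℝ) (U' : Submodule ℝ (V n)) (v' f' : V n)
      (T : V n →ₗ[ℝ] V n), StrictMono ψ ∧ (∀ m, g m ∈ Γ) ∧ (∀ m, 0 < s m) ∧ Bx C Γ U' v' ∧
      Module.finrank ℝ U' = d ∧ Unt C U' f' ∧ f' + v' ∈ C ∧
      Tendsto (fun m => s m • act (g m) (f (ψ m))) atTop (𝓝 f') ∧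
      Tendsto (fun m => s m • act (g m) (τ (ψ m) • v)) atTop (𝓝 v') ∧
      LimS (fun m => img (g m) U) U' ∧
      (∀ x ∈ closure C, T x ∈ closure C) ∧
      (∀ (y : ℕ → V n) (y0 : V n), Tendsto y atTop (𝓝 y0) →
        Tendsto (fun m => s m • act (g m) (y m)) atTop (𝓝 (T y0))) ∧
      ∀ y ∈ U, T y ∈ U' := by
  have hcc : CC C Γ := h.toCC
  have hK := h.maxc
  obtain ⟨hv, hvcl, -, -, -, h6, -, h8, -⟩ := bf1 n C Γ hcc hK U v hB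
  obtain ⟨-, -, -, -, h5', h6', -⟩ := bf2 n C Γ hcc hK U v hB
  have hP : ∀ m, f m + τ m • v ∈ C := fun m => (h6 (f m) (hf m).1 (τ m)).2 ⟨hf m, hτ m⟩
  have hPH : ∀ m, f m + τ m • v ∈ Hull C Γ := fun m =>
    hcc.hul.add _ (hcc.hul.lamHull _ (h8 _ (hf m).1 (hf m).2.1 (unit_ne bf1 hcc hK hB (hf m))).1)
      _ (hcc.hul.smul _ (hcc.hul.lamHull _ hv) _ (hτ m))
  obtain ⟨φ, g, s, p, hφ, hg, hs, hp, hlim⟩ :=
    Pool.Agent.PFS.H60.zom n C Γ hcc (fun m => f m + τ m • v) hP hPH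
  have hBm : ∀ m, Bx C Γ (img (g m) U) (s m • act (g m) (τ (φ m) • v)) := by
    intro m
    obtain ⟨-, -, -, -, -, h6'', -⟩ := bf2 n C Γ hcc hK U (τ (φ m) • v) (h5' _ (hτ _))
    exact (h6'' (g m) (hg m) (s m) (hs m)).1
  have hfm : ∀ m, s m • act (g m) (f (φ m)) ∈ img (g m) U := fun m =>
    (img (g m) U).smul_mem _ (mem_img.2 ⟨f (φ m), (hf _).1, rfl⟩)
  have hlim' : Tendsto (fun m => s m • act (g m) (f (φ m)) + s m • act (g m) (τ (φ m) • v)) atTop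
      (𝓝 p) := by
    refine hlim.congr fun m => ?_
    rw [CC.act_add, smul_add]
  obtain ⟨φ1, U', v', f', hφ1, hB', hf', hfv, hlf, hlv, hLS, -, hfin⟩ :=
    bxl n C Γ hcc hK (fun m => img (g m) U) (fun m => s m • act (g m) (τ (φ m) • v))
      (fun m => s m • act (g m) (f (φ m))) p hBm hfm hp hlim'
  have hfinU : Module.finrank ℝ U' = d := by
    rw [← hfin 0, ← hd]
    exact (Pool.Agent.PFJ.H32.img n).1 _ _
  have hlim1 : Tendsto (fun m => s (φ1 m) • act (g (φ1 m)) (f (φ (φ1 m)) + τ (φ (φ1 m)) • v))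
      atTop (𝓝 p) := hlim.comp hφ1.tendsto_atTop
  obtain ⟨⟨B, hBpos, hbd⟩, -⟩ := trf n C Γ hcc x0 p (fun m => f (φ (φ1 m)) + τ (φ (φ1 m)) • v)
    (fun m => g (φ1 m)) (fun m => s (φ1 m)) hx0 (fun m => hle _) (fun m => hg _) (fun m => hs _)
    hlim1
  obtain ⟨-, hlmt⟩ := lmt n
  obtain ⟨φ2, T, hφ2, hTpos, hT⟩ := hlmt C Γ hcc (fun m => g (φ1 m)) (fun m => s (φ1 m)) B
    (fun m => hg _) (fun m => hs _) hbd
  have hψ : StrictMono fun m => φ (φ1 (φ2 m)) := hφ.comp (hφ1.comp hφ2)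
  refine ⟨fun m => φ (φ1 (φ2 m)), fun m => g (φ1 (φ2 m)), fun m => s (φ1 (φ2 m)), U', v', f', T,
    hψ, fun m => hg _, fun m => hs _, hB', hfinU, hf', by rw [hfv]; exact hp,
    hlf.comp hφ2.tendsto_atTop, hlv.comp hφ2.tendsto_atTop,
    (Pool.Agent.PFJ.H10.lsf n).1 _ _ φ2 hLS hφ2, hTpos, hT, ?_⟩
  intro y hy
  refine hLS.2 φ2 (fun m => s (φ1 (φ2 m)) • act (g (φ1 (φ2 m))) y) (T y) hφ2 (fun m => ?_)
    (hT (fun _ => y) y tendsto_const_nhds)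
  exact (img (g (φ1 (φ2 m))) U).smul_mem _ (mem_img.2 ⟨y, hy, rfl⟩)

end Pool.Agent.PCO.H41
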